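import Pool.Agent.Y938.RT.Tree
import Pool.Agent.Y938.RT.Ineq
import Pool.Agent.Y938.RT.Neg

/-!
# Multivalued contractions with closed bounded values, and one continuous modulus, without fixed points
-/

set_option autoImplicit false

open Filter Topology Set Uniformity

namespace Pool.Agent.Results.MP_3789da_an.BoundedValues

/-- the metric `min (d, 1)`, with the same uniform structure -/
@[reducible] noncomputable def trunc {X : Type} (M : MetricSpace X) : MetricSpace X where
  dist x y := min (M.dist x y) 1
  dist_self x := by rw [M.dist_self]; simp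
  dist_comm x y := by rw [M.dist_comm]
  dist_triangle x y z := by
    have h1 : M.dist x z ≤ M.dist x y + M.dist y z := M.dist_triangle x y z
    have h2 : 0 ≤ M.dist x y := dist_nonneg
    have h3 : 0 ≤ M.dist y z := dist_nonneg
    rcases le_total (M.dist x y) 1 with h4 | h4
    · rcases le_total (M.dist y z) 1 with h5 | h5
      · rw [min_eq_left h4, min_eq_left h5]
        exact (min_le_left _ _).trans h1
      · rw [min_eq_left h4, min_eq_right h5]
        exact (min_le_right _ _).trans (by linarith)
    · rw [min_eq_right h4]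
      exact (min_le_right _ _).trans (by
        have : 0 ≤ min (M.dist y z) 1 := le_min h3 zero_le_one
        linarith)
  eq_of_dist_eq_zero := by
    intro x y h
    have h1 : M.dist x y = 0 := by
      rcases le_total (M.dist x y) 1 with h4 | h4
      · rwa [min_eq_left h4] at h
      · rw [min_eq_right h4] at h
        norm_num at h
    exact M.eq_of_dist_eq_zero h1
  toUniformSpace := M.toUniformSpace
  uniformity_dist := by
    rw [M.uniformity_dist]
    apply le_antisymm
    · refine le_iInf₂ fun ε hε => iInf₂_le_of_le ε hε (principal_mono.2 fun p hp => ?_)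
      have hp' : M.dist p.1 p.2 < ε := hp
      change min (M.dist p.1 p.2) 1 < ε
      exact (min_le_left _ _).trans_lt hp'
    · refine le_iInf₂ fun ε hε => iInf₂_le_of_le (min ε 1) (lt_min hε one_pos)
        (principal_mono.2 fun p hp => ?_)
      change M.dist p.1 p.2 < ε
      have hp' : min (M.dist p.1 p.2) 1 < min ε 1 := hp
      by_contra hn
      exact absurd (min_le_min_right 1 (not_lt.1 hn)) (not_le.2 hp')

/-- **Multivalued contractions with closed bounded values without fixed points.** There are a complete metric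
space `X` of diameter at most `1` and a map `T` from `X` to the nonempty closed subsets of `X` such that the
Hausdorff distance of `T x` and `T y` is at most `t - t² / 8`, `t = d (x, y)`, for all `x, y`, and `T` has no
fixed point. -/
theorem result :
    ∃ (X : Type) (_ : MetricSpace X) (_ : CompleteSpace X) (_ : Nonempty X) (T : X → Set X),
      (∀ x, (T x).Nonempty ∧ IsClosed (T x)) ∧ (∀ x y : X, dist x y ≤ 1) ∧
      (∀ x y : X, Metric.hausdorffDist (T x) (T y) ≤ dist x y - dist x y ^ 2 / 8) ∧
      ∀ x : X, x ∉ T x := by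
  obtain ⟨X, M, hC, hN, h, m, hT⟩ := Pool.Agent.Y938.RT.tree_spec
  have hnear := Pool.Agent.Y938.RT.Neg.near Pool.Agent.Y938.RT.ineq_spec hT
  have hcl := Pool.Agent.Y938.RT.Neg.T_closed hT
  have hne := Pool.Agent.Y938.RT.Neg.T_nonempty hT
  have hnm := Pool.Agent.Y938.RT.Neg.not_mem hT
  refine ⟨X, trunc M, hC, hN, Pool.Agent.Y938.RT.Neg.T h m, fun x => ⟨hne x, hcl x⟩,
    fun x y => min_le_right _ _, fun x y => ?_, hnm⟩
  -- the modulus
  have hmod : ∀ t : ℝ, 0 < t → Pool.Agent.Y938.RT.psi t ≤ min t 1 - min t 1 ^ 2 / 8 := by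
    intro t ht
    unfold Pool.Agent.Y938.RT.psi
    split_ifs with h1
    · rw [min_eq_left h1]
    · rw [min_eq_right (not_le.1 h1).le]
      norm_num
  by_cases hxy : x = y
  · subst hxy
    rw [@Metric.hausdorffDist_self_zero X (trunc M).toPseudoMetricSpace]
    have : (trunc M).dist x x = 0 := (trunc M).dist_self x
    change (0 : ℝ) ≤ (trunc M).dist x x - (trunc M).dist x x ^ 2 / 8
    rw [this]
    norm_num
  · have hpos : 0 < M.dist x y := dist_pos.2 hxy
    have hpos' : 0 < M.dist y x := dist_pos.2 (Ne.symm hxy)
    have h0 : (0 : ℝ) ≤ min (M.dist x y) 1 - min (M.dist x y) 1 ^ 2 / 8 :=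
      (Pool.Agent.Y938.RT.Neg.psi_nonneg hpos).trans (hmod _ hpos)
    refine @Metric.hausdorffDist_le_of_mem_dist X (trunc M).toPseudoMetricSpace _ _ _ h0 ?_ ?_
    · intro u hu
      obtain ⟨v, hv, hd⟩ := hnear x y hxy u hu
      exact ⟨v, hv, (min_le_left _ _).trans (hd.trans (hmod _ hpos))⟩
    · intro u hu
      obtain ⟨v, hv, hd⟩ := hnear y x (Ne.symm hxy) u hu
      have hc : M.dist y x = M.dist x y := M.dist_comm y x
      have h2 := hd.trans (hmod _ hpos')
      rw [hc] at h2
      exact ⟨v, hv, (min_le_left _ _).trans h2⟩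

end Pool.Agent.Results.MP_3789da_an.BoundedValues
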